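import Mathlib
import Pool.Agent.Helper53.MertensFour
import Pool.Agent.Helper53.Assemble

set_option autoImplicit false

namespace Pool.Agent.Results.MP_1cd194_co.GapLowerBound

open Finset

/-- The Euclidean plane. -/
abbrev Plane := EuclideanSpace ℝ (Fin 2)

/-- `f A d` is the number of unordered pairs of points of `A` at distance `d`
(half the number of ordered pairs of distinct points at distance `d`). -/
noncomputable def f (A : Finset Plane) (d : ℝ) : ℕ :=
  (A.offDiag.filter (fun q => dist q.1 q.2 = d)).card / 2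

/-- The finite set of distances determined by pairs of distinct points of `A`. -/
noncomputable def distances (A : Finset Plane) : Finset ℝ :=
  A.offDiag.image (fun q => dist q.1 q.2)

/-- The list `f(d_1) ≥ f(d_2) ≥ ...` of the multiplicities of all distances of `A`. -/
noncomputable def mults (A : Finset Plane) : List ℕ :=
  ((distances A).val.map (f A)).sort (fun a b => b ≤ a)

/-- `fr A j = f(d_j)` for `j ≥ 1`, which is `0` beyond the number of distances. -/
noncomputable def fr (A : Finset Plane) (j : ℕ) : ℕ := (mults A).getD (j - 1) 0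

/-- `M_r(n)`: the maximum of `f(d_r) - f(d_{r+1})` over all `n`-point sets in the plane. -/
noncomputable def M (r n : ℕ) : ℕ :=
  sSup {g | ∃ A : Finset Plane, A.card = n ∧ g = fr A r - fr A (r + 1)}

/-! ### Ranking -/

theorem mults_pairwise (A : Finset Plane) : (mults A).Pairwise (fun a b => b ≤ a) :=
  Multiset.pairwise_sort _ _

theorem mults_perm (A : Finset Plane) :
    ((mults A : List ℕ) : Multiset ℕ) = (distances A).val.map (f A) :=
  Multiset.sort_eq _ _

theorem countP_mults (A : Finset Plane) (q : ℕ → Prop) [DecidablePred q] :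
    (mults A).countP q = ((distances A).filter (fun d => q (f A d))).card := by
  rw [← Multiset.coe_countP, mults_perm, Multiset.countP_map]
  rfl

theorem getD_anti {l : List ℕ} (hl : l.Pairwise (fun a b => b ≤ a)) {i j : ℕ} (hij : i ≤ j) :
    l.getD j 0 ≤ l.getD i 0 := by
  rcases Nat.lt_or_ge j l.length with hj | hj
  · rw [List.getD_eq_getElem _ _ hj, List.getD_eq_getElem _ _ (lt_of_le_of_lt hij hj)]
    rcases Nat.eq_or_lt_of_le hij with h | h
    · subst h; exact le_rfl
    · exact List.pairwise_iff_getElem.mp hl i j _ _ h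
  · rw [List.getD_eq_default _ _ hj]
    exact Nat.zero_le _

theorem getD_ge_of_countP {l : List ℕ} (hl : l.Pairwise (fun a b => b ≤ a)) {r T : ℕ}
    (hr : 1 ≤ r) (hc : r ≤ l.countP (fun x => T ≤ x)) : T ≤ l.getD (r - 1) 0 := by
  by_contra hcon
  push Not at hcon
  have h1 : l.countP (fun x => T ≤ x) ≤ (l.take (r - 1)).countP (fun x => T ≤ x) +
      (l.drop (r - 1)).countP (fun x => T ≤ x) := by
    conv_lhs => rw [← List.take_append_drop (r - 1) l, List.countP_append]
  have h2 : (l.drop (r - 1)).countP (fun x => T ≤ x) = 0 := by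
    rw [List.countP_eq_zero]
    intro x hx
    rw [List.mem_iff_getElem] at hx
    obtain ⟨i, hi, rfl⟩ := hx
    rw [List.getElem_drop]
    have hlen : r - 1 + i < l.length := by
      rw [List.length_drop] at hi
      omega
    have h3 := getD_anti hl (show r - 1 ≤ r - 1 + i by omega)
    rw [List.getD_eq_getElem _ _ hlen] at h3
    simp only [decide_eq_true_eq, not_le]
    omega
  have h3 : (l.take (r - 1)).countP (fun x => T ≤ x) ≤ r - 1 :=
    (List.countP_le_length).trans (List.length_take_le _ _)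
  omega

theorem getD_le_of_countP {l : List ℕ} (hl : l.Pairwise (fun a b => b ≤ a)) {r T : ℕ}
    (hc : l.countP (fun x => T < x) ≤ r) : l.getD r 0 ≤ T := by
  by_contra hcon
  push Not at hcon
  have hlen : r < l.length := by
    by_contra h
    rw [List.getD_eq_default _ _ (not_lt.mp h)] at hcon
    omega
  have h1 : (l.take (r + 1)).countP (fun x => T < x) = (l.take (r + 1)).length := by
    rw [List.countP_eq_length]
    intro x hx
    rw [List.mem_iff_getElem] at hx
    obtain ⟨i, hi, rfl⟩ := hx
    rw [List.getElem_take]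
    rw [List.length_take] at hi
    have h3 := getD_anti hl (show i ≤ r by omega)
    rw [List.getD_eq_getElem _ _ (by omega : i < l.length)] at h3
    simp only [decide_eq_true_eq]
    omega
  have h2 : (l.take (r + 1)).countP (fun x => T < x) ≤ l.countP (fun x => T < x) := by
    conv_rhs => rw [← List.take_append_drop (r + 1) l, List.countP_append]
    exact Nat.le_add_right _ _
  rw [h1, List.length_take] at h2
  omega

theorem fr_ge (A : Finset Plane) (r T : ℕ) (hr : 1 ≤ r) (hT : 1 ≤ T) (D : Finset ℝ)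
    (hD : D.card = r) (h : ∀ d ∈ D, T ≤ f A d) : T ≤ fr A r := by
  apply getD_ge_of_countP (mults_pairwise A) hr
  rw [countP_mults, ← hD]
  apply Finset.card_le_card
  intro d hd
  rw [Finset.mem_filter]
  refine ⟨?_, h d hd⟩
  have h1 := h d hd
  have h2 : (A.offDiag.filter (fun q => dist q.1 q.2 = d)).card ≠ 0 := by
    intro h0
    unfold f at h1
    rw [h0] at h1
    omega
  rw [Finset.card_ne_zero] at h2
  obtain ⟨q, hq⟩ := h2
  rw [Finset.mem_filter] at hq
  rw [distances, Finset.mem_image]
  exact ⟨q, hq.1, hq.2⟩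

theorem fr_le (A : Finset Plane) (r T : ℕ) (D : Finset ℝ)
    (hD : D.card ≤ r) (h : ∀ d, d ∉ D → f A d ≤ T) : fr A (r + 1) ≤ T := by
  unfold fr
  rw [Nat.add_sub_cancel]
  apply getD_le_of_countP (mults_pairwise A)
  rw [countP_mults]
  refine le_trans (Finset.card_le_card ?_) hD
  intro d hd
  rw [Finset.mem_filter] at hd
  by_contra hnot
  have := h d hnot
  omega

theorem f_le (A : Finset Plane) (d : ℝ) : f A d ≤ A.card * A.card := by
  unfold f
  refine (Nat.div_le_self _ _).trans ((Finset.card_filter_le _ _).trans ?_)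
  rw [Finset.offDiag_card]
  exact Nat.sub_le _ _

theorem fr_le_sq (A : Finset Plane) (r : ℕ) : fr A r ≤ A.card * A.card := by
  unfold fr
  rcases Nat.lt_or_ge (r - 1) (mults A).length with h | h
  · rw [List.getD_eq_getElem _ _ h]
    have hmem : (mults A)[r - 1] ∈ mults A := List.getElem_mem h
    have : (mults A)[r - 1] ∈ ((mults A : List ℕ) : Multiset ℕ) := hmem
    rw [mults_perm, Multiset.mem_map] at this
    obtain ⟨d, -, hd⟩ := this
    rw [← hd]
    exact f_le A d
  · rw [List.getD_eq_default _ _ h]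
    exact Nat.zero_le _

theorem le_M {r n : ℕ} (A : Finset Plane) (hA : A.card = n) :
    fr A r - fr A (r + 1) ≤ M r n := by
  apply le_csSup
  · refine ⟨n * n, ?_⟩
    rintro g ⟨B, hB, rfl⟩
    have := fr_le_sq B r
    rw [hB] at this
    omega
  · exact ⟨A, hA, rfl⟩


/-! ### The construction -/

open Pool.Agent.Helper53 in
theorem gap_of_family (L t : ℕ) (hL : 21168 ≤ L) (ht : 1 ≤ t) (htL : t ≤ L)
    (hprimes : L ^ 8 ≤ (MertensFour.Pr (L ^ 9) (L ^ 10)).card) (n r : ℕ) (hr : 1 ≤ r)
    (hn : r * (9 * L ^ (17 * t)) ≤ n) : 2 ^ t * n ≤ 28224 * r * M r n := by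
  classical
  -- choose the primes
  have hcard : Fintype.card (Fin t × Fin (L ^ 7)) ≤
      Fintype.card (MertensFour.Pr (L ^ 9) (L ^ 10)) := by
    rw [Fintype.card_prod, Fintype.card_fin, Fintype.card_fin, Fintype.card_coe]
    calc t * L ^ 7 ≤ L * L ^ 7 := Nat.mul_le_mul_right _ htL
      _ = L ^ 8 := by ring
      _ ≤ _ := hprimes
  obtain ⟨e⟩ := Function.Embedding.nonempty_of_card_le hcard
  set p : Fin t → Fin (L ^ 7) → ℕ := fun i a => (e (i, a) : ℕ) with hpdef
  have hmem : ∀ i a, p i a ∈ MertensFour.Pr (L ^ 9) (L ^ 10) := fun i a => (e (i, a)).2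
  have hall : ∀ i a, (L ^ 9 < p i a ∧ p i a ≤ L ^ 10) ∧ (p i a).Prime ∧ p i a % 4 = 1 := by
    intro i a
    have := hmem i a
    rw [MertensFour.Pr, Finset.mem_filter, Finset.mem_Ioc] at this
    exact this
  have hp : ∀ i a, (p i a).Prime := fun i a => (hall i a).2.1
  have h1 : ∀ i a, p i a % 4 = 1 := fun i a => (hall i a).2.2
  have hlow : ∀ i a, L ^ 9 < p i a := fun i a => (hall i a).1.1
  have hup : ∀ i a, p i a ≤ L ^ 10 := fun i a => (hall i a).1.2
  have hinj : ∀ i a j b, p i a = p j b → i = j ∧ a = b := by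
    intro i a j b h
    have h2 : e (i, a) = e (j, b) := Subtype.ext h
    have h3 := e.injective h2
    exact ⟨(Prod.mk.inj h3).1, (Prod.mk.inj h3).2⟩
  -- sizes
  set Sg := ∏ i, Family.sg p i with hSg
  have hsg_low : ∀ i, L ^ 16 ≤ Family.sg p i := by
    intro i
    unfold Family.sg
    calc L ^ 16 = ∑ _a : Fin (L ^ 7), L ^ 9 := by
          rw [Finset.sum_const, Finset.card_univ, Fintype.card_fin, smul_eq_mul]; ring
      _ ≤ ∑ a, p i a := Finset.sum_le_sum (fun a _ => (hlow i a).le)
  have hsg_up : ∀ i, Family.sg p i ≤ L ^ 17 := by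
    intro i
    unfold Family.sg
    calc ∑ a, p i a ≤ ∑ _a : Fin (L ^ 7), L ^ 10 := Finset.sum_le_sum (fun a _ => hup i a)
      _ = L ^ 17 := by
          rw [Finset.sum_const, Finset.card_univ, Fintype.card_fin, smul_eq_mul]; ring
  have hSg_low : L ^ (16 * t) ≤ Sg := by
    calc L ^ (16 * t) = ∏ _i : Fin t, L ^ 16 := by
          rw [Finset.prod_const, Finset.card_univ, Fintype.card_fin, ← pow_mul]
      _ ≤ Sg := Finset.prod_le_prod' (fun i _ => hsg_low i)
  have hSg_up : Sg ≤ L ^ (17 * t) := by
    calc Sg ≤ ∏ _i : Fin t, L ^ 17 := Finset.prod_le_prod' (fun i _ => hsg_up i)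
      _ = L ^ (17 * t) := by
          rw [Finset.prod_const, Finset.card_univ, Fintype.card_fin, ← pow_mul]
  have hn1_up : Assemble.n1 p ≤ 9 * Sg := by
    unfold Assemble.n1
    rw [hSg, ← Family.sum_md, Finset.mul_sum]
    exact Finset.sum_le_sum (fun h _ => Grid.card_A_le _ (Family.md_pos p hp h))
  have hF := Family.F_one_ge p (by omega) ht hp h1 hlow hinj
  rw [← hSg] at hF
  set F1 := Family.F p 1 with hF1
  have hbig : 8 * (9 * L ^ (10 * t)) + 8 ≤ F1 := by
    have h2 : 1 ≤ L ^ (10 * t) := Nat.one_le_pow _ _ (by omega)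
    have h3 : 196 * (8 * (9 * L ^ (10 * t)) + 8) ≤ 196 * F1 := by
      calc 196 * (8 * (9 * L ^ (10 * t)) + 8) ≤ 21168 * L ^ (10 * t) := by omega
        _ ≤ L * L ^ (10 * t) := Nat.mul_le_mul_right _ hL
        _ ≤ L ^ (6 * t) * L ^ (10 * t) := by
            apply Nat.mul_le_mul_right
            calc L = L ^ 1 := (pow_one L).symm
              _ ≤ L ^ (6 * t) := Nat.pow_le_pow_right (by omega) (by omega)
        _ = L ^ (16 * t) := by rw [← pow_add]; congr 1; ring
        _ ≤ Sg := hSg_low
        _ ≤ 2 ^ t * Sg := Nat.le_mul_of_pos_left _ (by positivity)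
        _ ≤ 196 * F1 := hF
    exact Nat.le_of_mul_le_mul_left h3 (by norm_num)
  have hn1_pos : 0 < Assemble.n1 p := by
    by_contra h0
    have hz : Assemble.n1 p = 0 := by omega
    -- then `F p 1` would vanish
    have : F1 = 0 := by
      rw [hF1]
      unfold Family.F
      apply Finset.sum_eq_zero
      intro h _
      have hA : (Grid.A (Family.md p h)).card = 0 := by
        unfold Assemble.n1 at hz
        rw [Finset.sum_eq_zero_iff] at hz
        exact hz h (Finset.mem_univ _)
      rw [Finset.card_eq_zero] at hA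
      unfold Family.g
      rw [hA]
      simp
    omega
  set q := r * Assemble.n1 p with hq
  have hqpos : 0 < q := Nat.mul_pos (by omega) hn1_pos
  have hqn : q ≤ n := by
    calc q ≤ r * (9 * L ^ (17 * t)) := Nat.mul_le_mul_left _
          (hn1_up.trans (Nat.mul_le_mul_left _ hSg_up))
      _ ≤ n := hn
  obtain ⟨U, D, hU, hD, hDin, hDout⟩ := Assemble.assemble p hL ht hp h1 hlow hup hinj
    (n / q) r (n % q)
  set w := n / q with hw
  have hw1 : 1 ≤ w := Nat.div_pos hqn hqpos
  have hUn : U.card = n := by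
    rw [hU, ← hq, mul_comm]
    exact Nat.div_add_mod n q
  have hn2 : n ≤ 2 * (w * q) := by
    have h2 := Nat.div_add_mod n q
    have h3 := Nat.mod_lt n hqpos
    have h4 : q ≤ w * q := Nat.le_mul_of_pos_left _ hw1
    have h5 : q * (n / q) = w * q := mul_comm _ _
    omega
  rw [← hF1] at hDin hDout
  have hx : 8 * (9 * L ^ (10 * t)) + 8 ≤ w * F1 :=
    hbig.trans (Nat.le_mul_of_pos_left _ hw1)
  have hT : w * F1 / 2 ≤ fr U r := by
    apply fr_ge U r _ hr (by omega) D hD
    intro d hd
    have h2 : w * F1 ≤ Generic.P U d := hDin d hd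
    have h3 : f U d = Generic.P U d / 2 := rfl
    rw [h3]
    exact Nat.div_le_div_right h2
  have hT' : fr U (r + 1) ≤ (w * F1 + 4 * (9 * L ^ (10 * t))) / 4 := by
    apply fr_le U r _ D hD.le
    intro d hd
    have h2 : 2 * Generic.P U d ≤ w * F1 + 4 * (9 * L ^ (10 * t)) := hDout d hd
    have h3 : f U d = Generic.P U d / 2 := rfl
    rw [h3]
    omega
  have hM := le_M (r := r) U hUn
  have hgap : w * F1 ≤ 8 * M r n := by omega
  calc 2 ^ t * n ≤ 2 ^ t * (2 * (w * q)) := Nat.mul_le_mul_left _ hn2
    _ = 2 * w * r * (2 ^ t * Assemble.n1 p) := by rw [hq]; ring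
    _ ≤ 2 * w * r * (2 ^ t * (9 * Sg)) := by gcongr
    _ = 18 * w * r * (2 ^ t * Sg) := by ring
    _ ≤ 18 * w * r * (196 * F1) := Nat.mul_le_mul_left _ hF
    _ = 3528 * r * (w * F1) := by ring
    _ ≤ 3528 * r * (8 * M r n) := Nat.mul_le_mul_left _ hgap
    _ = 28224 * r * M r n := by ring

open Pool.Agent.Helper53 Filter in
/-- For all large `n` and all `1 ≤ r ≤ √n`, `M_r(n) ≥ n^{1 + 1/(100 log log n)} / r`. -/
theorem result : ∃ n₀ : ℕ, ∀ n : ℕ, n₀ ≤ n → ∀ r : ℕ, 1 ≤ r → (r : ℝ) ≤ √n →
    (n : ℝ) ^ (1 + 1 / (100 * Real.log (Real.log n))) / r ≤ M r n := by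
  obtain ⟨L0, hL0⟩ := MertensFour.many_primes
  have hlog : Tendsto (fun n : ℕ => Real.log n) atTop atTop :=
    Real.tendsto_log_atTop.comp tendsto_natCast_atTop_atTop
  have ev1 : ∀ᶠ x : ℝ in atTop, (L0 : ℝ) + 21169 ≤ x := eventually_ge_atTop _
  have ev2 : ∀ᶠ x : ℝ in atTop, 2000 * Real.log x ≤ x := by
    have h := Real.isLittleO_log_id_atTop.def (c := 1 / 2000) (by norm_num)
    filter_upwards [h, eventually_ge_atTop (0 : ℝ)] with x hx hx0
    simp only [id, Real.norm_eq_abs] at hx
    rw [abs_of_nonneg hx0] at hx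
    have := le_abs_self (Real.log x)
    linarith
  obtain ⟨n₀, hn₀⟩ := Filter.eventually_atTop.mp (hlog.eventually (ev1.and ev2))
  refine ⟨n₀ + 1, ?_⟩
  intro n hn r hr hrn
  obtain ⟨hx1, hx2⟩ := hn₀ n (by omega)
  have hnpos : (0 : ℝ) < n := by exact_mod_cast (by omega : 0 < n)
  set x := Real.log n with hx
  have hx0 : 21169 ≤ x := by
    have : (0 : ℝ) ≤ L0 := by positivity
    linarith
  set L := ⌊x⌋₊ with hL
  have hLx : (L : ℝ) ≤ x := Nat.floor_le (by linarith)
  have hxL : x < L + 1 := Nat.lt_floor_add_one x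
  have hLL0 : L0 + 21168 ≤ L := by
    rw [hL]
    apply Nat.le_floor
    push_cast
    linarith
  have hL1 : 21168 ≤ L := by omega
  have hLr : (21168 : ℝ) ≤ L := by exact_mod_cast hL1
  have hlogL1 : 1 ≤ Real.log L := by
    rw [Real.le_log_iff_exp_le (by linarith)]
    have := Real.exp_one_lt_d9
    linarith
  have hlogLx : Real.log L ≤ Real.log x := Real.log_le_log (by linarith) hLx
  have hlogx : 0 < Real.log x := by linarith
  set t := ⌊x / (40 * Real.log L)⌋₊ with htdef
  have ht_le : (t : ℝ) ≤ x / (40 * Real.log L) := Nat.floor_le (by positivity)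
  have ht_gt : x / (40 * Real.log L) < t + 1 := Nat.lt_floor_add_one _
  have ht1 : 1 ≤ t := by
    rw [htdef]
    apply Nat.le_floor
    rw [Nat.cast_one, le_div_iff₀ (by positivity)]
    linarith
  have htL : t ≤ L := by
    have : (t : ℝ) ≤ L := by
      have h2 : x / (40 * Real.log L) ≤ x / 40 := by
        apply div_le_div_of_nonneg_left (by linarith) (by norm_num)
        linarith
      linarith
    exact_mod_cast this
  -- size condition
  have hsize : (r : ℝ) * (9 * (L : ℝ) ^ (17 * t)) ≤ n := by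
    have hLpos : (0 : ℝ) < L := by linarith
    have h2 : (L : ℝ) ^ (17 * t) ≤ Real.exp (17 * x / 40) := by
      rw [← Real.exp_log (show (0 : ℝ) < (L : ℝ) ^ (17 * t) by positivity), Real.log_pow]
      apply Real.exp_le_exp.mpr
      push_cast
      have h3 : (t : ℝ) * Real.log L ≤ x / 40 := by
        calc (t : ℝ) * Real.log L ≤ (x / (40 * Real.log L)) * Real.log L := by gcongr
          _ = x / 40 := by field_simp
      linarith
    have h3 : √(n : ℝ) = Real.exp (x / 2) := by
      rw [hx, Real.sqrt_eq_rpow, Real.rpow_def_of_pos hnpos]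
      congr 1
      ring
    have h4 : (9 : ℝ) ≤ Real.exp (3 * x / 40) := by
      have := Real.add_one_le_exp (3 * x / 40)
      linarith
    have h5 : (n : ℝ) = Real.exp x := by rw [hx, Real.exp_log hnpos]
    calc (r : ℝ) * (9 * (L : ℝ) ^ (17 * t))
        ≤ Real.exp (x / 2) * (Real.exp (3 * x / 40) * Real.exp (17 * x / 40)) := by
          rw [← h3]
          gcongr
      _ = Real.exp x := by
          rw [← Real.exp_add, ← Real.exp_add]
          congr 1
          ring
      _ = n := h5.symm
  have hsize' : r * (9 * L ^ (17 * t)) ≤ n := by exact_mod_cast hsize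
  have hmain := gap_of_family L t hL1 ht1 htL (hL0 L (by omega)) n r hr hsize'
  have hmain' : (2 : ℝ) ^ t * n ≤ 28224 * r * M r n := by exact_mod_cast hmain
  -- analytic comparison
  have hrpos : (0 : ℝ) < r := by exact_mod_cast hr
  have h2t : 28224 * Real.exp (x / (100 * Real.log x)) ≤ (2 : ℝ) ^ t := by
    have hy : 2000 ≤ x / Real.log x := by
      rw [le_div_iff₀ hlogx]
      exact hx2
    set y := x / Real.log x with hydef
    have e1 : x / (100 * Real.log x) = y / 100 := by
      rw [hydef]; field_simp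
    have e2 : y / 40 - 1 ≤ t := by
      have h6 : y / 40 ≤ x / (40 * Real.log L) := by
        rw [hydef, div_div, mul_comm (Real.log x) 40]
        apply div_le_div_of_nonneg_left (by linarith) (by positivity)
        linarith
      linarith
    have e3 : Real.exp ((t : ℝ) * Real.log 2) = (2 : ℝ) ^ t := by
      rw [mul_comm, Real.exp_mul, Real.exp_log (by norm_num), Real.rpow_natCast]
    have hlog2 : (0.69 : ℝ) ≤ Real.log 2 := by
      have := Real.log_two_gt_d9
      linarith
    have hlog2' : Real.log 2 ≤ 1 := by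
      have := Real.log_two_lt_d9
      linarith
    have h28224 : (28224 : ℝ) ≤ Real.exp 12 := by
      have h7 : (2.7182818283 : ℝ) ^ 12 ≤ Real.exp 1 ^ 12 := by
        apply pow_le_pow_left₀ (by norm_num) Real.exp_one_gt_d9.le
      rw [← Real.exp_nat_mul] at h7
      norm_num at h7
      linarith
    rw [← e3, e1]
    calc 28224 * Real.exp (y / 100) ≤ Real.exp 12 * Real.exp (y / 100) := by gcongr
      _ = Real.exp (12 + y / 100) := by rw [Real.exp_add]
      _ ≤ Real.exp ((t : ℝ) * Real.log 2) := by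
          apply Real.exp_le_exp.mpr
          have h8 : (y / 40 - 1) * 0.69 ≤ t * Real.log 2 := by
            apply mul_le_mul e2 hlog2 (by norm_num)
            positivity
          linarith
  have hpow : (n : ℝ) ^ (1 + 1 / (100 * Real.log x)) =
      n * Real.exp (x / (100 * Real.log x)) := by
    rw [Real.rpow_add hnpos, Real.rpow_one, Real.rpow_def_of_pos hnpos, ← hx]
    congr 2
    ring
  rw [hpow, div_le_iff₀ hrpos]
  have h9 : 28224 * (n * Real.exp (x / (100 * Real.log x))) ≤ 28224 * (M r n * r) := by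
    calc 28224 * (n * Real.exp (x / (100 * Real.log x)))
        = (28224 * Real.exp (x / (100 * Real.log x))) * n := by ring
      _ ≤ (2 : ℝ) ^ t * n := by gcongr
      _ ≤ 28224 * r * M r n := hmain'
      _ = 28224 * (M r n * r) := by ring
  linarith

end Pool.Agent.Results.MP_1cd194_co.GapLowerBound
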