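import Mathlib
import Pool.Agent.UDT.All

set_option autoImplicit false

namespace Pool.Agent.UDT.Old.PowerGap

open Pool.Agent.Helper60.Gap

/-- There are `δ > 0` and `N` such that `M_r(n) ≥ (n/r)^(1+δ)` for all `n` and `r` with
`1 ≤ r` and `N r ≤ n`. In particular `M_1(n) ≥ n^(1+δ)` for all `n ≥ N`. -/
theorem result : ∃ δ : ℝ, 0 < δ ∧ ∃ N : ℕ, ∀ n r : ℕ, 1 ≤ r → N * r ≤ n →
    ((n : ℝ) / r) ^ (1 + δ) ≤ M r n :=
  Pool.Agent.UDT.power_gap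

end Pool.Agent.UDT.Old.PowerGap
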